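import Mathlib

set_option autoImplicit false

namespace Pool.Agent.H.MP_39f9da_an

open Finset

abbrev F := ZMod 2

theorem anti (f : ℤ → F) : ∃ A : ℤ → F, ∀ n, A n + A (n - 1) = f n := by
  refine ⟨fun n => Int.rec (fun k => ∑ i ∈ range k, f (i + 1)) (fun k => ∑ i ∈ range (k + 1), f (-i)) n, ?_⟩
  rintro ((_ | k) | k)
  · change ∑ i ∈ range 0, _ + ∑ i ∈ range 1, _ = _
    simp
  · rw [show Int.ofNat (k + 1) - 1 = Int.ofNat k by simp]
    simp only [sum_range_succ]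
    rw [add_right_comm, CharTwo.add_self_eq_zero, zero_add]
    rfl
  · change ∑ i ∈ range (k + 1), _ + ∑ i ∈ range (k + 1 + 1), _ = _
    rw [sum_range_succ _ (k + 1), ← add_assoc, CharTwo.add_self_eq_zero, zero_add]
    rfl

theorem pot (h u : ℤ × ℤ → F) (d : ∀ i j, h (i, j) + h (i - 1, j) + u (i, j) + u (i, j - 1) = 0) :
    ∃ γ : ℤ × ℤ → F, ∀ i j, h (i, j) = γ (i, j) + γ (i, j - 1) ∧ u (i, j) = γ (i, j) + γ (i - 1, j) := by
  choose A hA using fun i => anti fun j => h (i, j)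
  obtain ⟨B, hB⟩ := anti fun i => u (i, 0) + A i 0 + A (i - 1) 0
  have k : ∀ i j, u (i, j) + A i j + A (i - 1) j = u (i, j - 1) + A i (j - 1) + A (i - 1) (j - 1) := fun i j => by
    linear_combination d i j + hA i j + hA (i - 1) j - (u (i, j - 1) + A i (j - 1) + A (i - 1) (j - 1)) * CharTwo.two_eq_zero (R := F)
  have c : ∀ i j, u (i, j) + A i j + A (i - 1) j = B i + B (i - 1) := fun i j => by
    induction j using Int.induction_on with
    | zero => exact (hB i).symm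
    | succ j ih => rw [k, add_sub_cancel_right, ih]
    | pred j ih => rw [← k, ih]
  exact ⟨fun v => A v.1 v.2 + B v.1, fun i j => ⟨by linear_combination -hA i j - B i * CharTwo.two_eq_zero (R := F),
    by linear_combination c i j - (A i j + A (i - 1) j) * CharTwo.two_eq_zero (R := F)⟩⟩

variable {G : Type} [Group G] (φ : ℤ × ℤ → G) (hm : ∀ u v, φ (u + v) = φ u * φ v) (hi : Function.Injective φ)

def X : Set (G → F × F) := {x | ∀ g, (x g).1 + (x (φ (-1, 0) * g)).1 + (x g).2 + (x (φ (0, -1) * g)).2 = 1}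

include hm in
theorem f0 : φ 0 = 1 := by simpa using hm 0 0

include hm hi in
theorem coord : ∃ (c : G → ℤ × ℤ) (ρ : G → G), (∀ g, φ (c g) * ρ g = g) ∧ ∀ u g, ρ (φ u * g) = ρ g ∧ c (φ u * g) = u + c g := by
  let s : Setoid G := ⟨fun g g' => ∃ u, φ u * g = g', fun g => ⟨0, by rw [f0 φ hm, one_mul]⟩, fun ⟨u, e⟩ =>
    ⟨-u, by rw [← e, ← mul_assoc, ← hm, neg_add_cancel, f0 φ hm, one_mul]⟩, fun ⟨u, e⟩ ⟨v, f⟩ => ⟨v + u, by rw [hm, mul_assoc, e, f]⟩⟩
  choose c hc using fun g => Quotient.mk_out (s := s) g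
  have k : ∀ u g, (Quotient.mk s (φ u * g)).out = (Quotient.mk s g).out := fun u g => by rw [← Quotient.sound (s := s) ⟨u, rfl⟩]
  refine ⟨c, _, hc, fun u g => ⟨k u g, hi (mul_right_cancel (b := (Quotient.mk s g).out) ?_)⟩⟩
  rw [hm, mul_assoc, hc, ← k u g, hc]

include hm hi in
theorem X_ne : (X φ).Nonempty := by
  obtain ⟨c, ρ, -, h⟩ := coord φ hm hi
  refine ⟨fun g => ((c g).1, 0), fun g => ?_⟩
  simp only [h, Prod.fst_add]
  push_cast
  linear_combination (((c g).1 : F) - 1) * CharTwo.two_eq_zero (R := F)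

theorem X_sft : ∃ (S : Finset G) (P : Set (S → F × F)), X φ = {x | ∀ g : G, (fun s : S => x (s.1 * g)) ∈ P} := by
  classical
  exact ⟨{1, φ (-1, 0), φ (0, -1)}, {p | (p ⟨1, by simp⟩).1 + (p ⟨φ (-1, 0), by simp⟩).1 + (p ⟨1, by simp⟩).2 +
    (p ⟨φ (0, -1), by simp⟩).2 = 1}, by simp [X]⟩

include hm hi in
theorem X_si : ∃ Δ : Finset G, ∀ Ω₁ Ω₂ : Set G, (∀ d ∈ Δ, ∀ w ∈ Ω₁, d * w ∉ Ω₂) →
    ∀ x₁ ∈ X φ, ∀ x₂ ∈ X φ, ∃ z ∈ X φ, (∀ w ∈ Ω₁, z w = x₁ w) ∧ (∀ w ∈ Ω₂, z w = x₂ w) := by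
  classical
  obtain ⟨c, ρ, e, h⟩ := coord φ hm hi
  refine ⟨(Icc (-1, -1) (1, 1)).image φ, fun A B s x hx y hy => ?_⟩
  choose γ hγ using fun r => pot (fun v => (x (φ v * r)).1 - (y (φ v * r)).1) (fun v => (x (φ v * r)).2 - (y (φ v * r)).2) fun i j => by
    have a := hx (φ (i, j) * r)
    have b := hy (φ (i, j) * r)
    simp only [← mul_assoc, ← hm, Prod.mk_add_mk, zero_add, neg_add_eq_sub] at a b
    linear_combination a - b
  let Γ : G → F := fun g => if g ∈ A ∨ φ (1, 0) * g ∈ A ∨ φ (0, 1) * g ∈ A then γ (ρ g) (c g) else 0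
  refine ⟨fun g => y g + (Γ g + Γ (φ (0, -1) * g), Γ g + Γ (φ (-1, 0) * g)), fun g => ?_, fun w a => ?_, fun w a => ?_⟩
  · simp only [Prod.fst_add, Prod.snd_add, ← mul_assoc, ← hm, add_comm ((-1, 0) : ℤ × ℤ)]
    linear_combination hy g + (Γ g + Γ (φ (0, -1) * g) + Γ (φ (-1, 0) * g) + Γ (φ ((0, -1) + (-1, 0)) * g)) * CharTwo.two_eq_zero (R := F)
  · have k := hγ (ρ w) (c w).1 (c w).2
    simp only [e] at k
    have h1 : Γ w = γ (ρ w) (c w) := if_pos (.inl a)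
    have h2 : Γ (φ (0, -1) * w) = γ (ρ w) ((c w).1, (c w).2 - 1) :=
      (if_pos (.inr (.inr (by rwa [← mul_assoc, ← hm, show ((0, 1) + (0, -1) : ℤ × ℤ) = 0 from rfl, f0 φ hm, one_mul])))).trans
        (by rw [(h _ _).1, (h _ _).2]; congr 1; ext <;> simp [neg_add_eq_sub])
    have h3 : Γ (φ (-1, 0) * w) = γ (ρ w) ((c w).1 - 1, (c w).2) :=
      (if_pos (.inr (.inl (by rwa [← mul_assoc, ← hm, show ((1, 0) + (-1, 0) : ℤ × ℤ) = 0 from rfl, f0 φ hm, one_mul])))).trans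
        (by rw [(h _ _).1, (h _ _).2]; congr 1; ext <;> simp [neg_add_eq_sub])
    simp only [h1, h2, h3, ← k.1, ← k.2]
    ext <;> simp
  · have n : ∀ u : ℤ × ℤ, (-1, -1) ≤ -u → -u ≤ (1, 1) → φ u * w ∉ A := fun u p q r => s _ (mem_image_of_mem φ (mem_Icc.2 ⟨p, q⟩)) _ r
      (by rwa [← mul_assoc, ← hm, neg_add_cancel, f0 φ hm, one_mul])
    have k : ∀ u : ℤ × ℤ, u = 0 ∨ u = (0, -1) ∨ u = (-1, 0) → Γ (φ u * w) = 0 := fun u b => if_neg (by
      simp only [← mul_assoc, ← hm, not_or]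
      rcases b with rfl | rfl | rfl <;> exact ⟨n _ (by decide) (by decide), n _ (by decide) (by decide), n _ (by decide) (by decide)⟩)
    have := k 0 (.inl rfl)
    rw [f0 φ hm, one_mul] at this
    simp [this, k]

theorem odd_per {A : Type} (y : G → A) (hy : (Set.range fun g h : G => y (h * g)).Finite) (a t : G) (e : t * a * t⁻¹ = a ^ 2) :
    ∃ m : ℕ, Odd m ∧ ∀ h, y (h * a ^ m) = y h := by
  let s : ℕ → G := fun k => (t ^ k)⁻¹ * a * t ^ k
  have h1 : ∀ k, s (k + 1) ^ 2 = s k := fun k => by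
    have := conj_pow (i := 2) (a := (t ^ (k + 1))⁻¹) (b := a)
    rw [inv_inv] at this
    simp only [s]
    rw [this, ← e, pow_succ']
    group
  have h2 : ∀ j k, s (k + j) ^ 2 ^ j = s k := fun j k => by
    induction j with
    | zero => simp
    | succ j ih => rw [pow_succ', pow_mul, ← add_assoc, h1, ih]
  obtain ⟨k, l, a1, a2⟩ := Set.Finite.exists_lt_map_eq_of_forall_mem (f := fun (k : ℕ) (h : G) => y (h * s k)) (fun k => Set.mem_range_self (f := fun g h : G => y (h * g)) (s k)) hy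
  obtain ⟨j, rfl⟩ := Nat.exists_eq_add_of_lt a1
  obtain ⟨d, p⟩ : ∃ d, 2 ^ (j + 1) = d + 1 := Nat.exists_eq_succ_of_ne_zero (by positivity)
  have r := h2 (j + 1) k
  rw [p, ← add_assoc, pow_succ' (s _)] at r
  have q : ∀ n h, y (h * (s (k + j + 1) ^ d) ^ n) = y h := fun n => by
    induction n with
    | zero => simp
    | succ n ih =>
      intro h
      have := congrFun a2 (h * (s (k + j + 1) ^ d) ^ n * (s (k + j + 1))⁻¹)
      rw [inv_mul_cancel_right, ih, ← r, mul_assoc, inv_mul_cancel_left, mul_assoc] at this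
      rw [pow_succ]
      exact this
  refine ⟨d, ?_, fun h => ?_⟩
  · have : Even (d + 1) := p ▸ by simp [Nat.even_pow]
    simpa [Nat.even_add_one] using this
  have := h2 (k + j + 1) 0
  simp only [zero_add, s, pow_zero, inv_one, one_mul, mul_one] at this
  rw [← this, ← pow_mul, mul_comm (2 ^ _), pow_mul]
  exact q _ h

include hm in
theorem X_aper (t : G) (e : ∀ u, t * φ u * t⁻¹ = φ u ^ 2) : ∀ y ∈ X φ, ¬ (Set.range fun g h : G => y (h * g)).Finite := fun y hy f => by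
  have w : ∀ u (n : ℕ), φ u ^ n = φ (n • u) := fun u n => by
    induction n with
    | zero => simp [f0 φ hm]
    | succ n ih => rw [pow_succ, ih, succ_nsmul, hm]
  obtain ⟨m, m1, m2⟩ := odd_per y f _ t (e (1, 0))
  obtain ⟨n, n1, n2⟩ := odd_per y f _ t (e (0, 1))
  have tel : ∀ (k : ℕ) (f : ℤ → F), f (-1 + k) = f (-1) → ∑ i ∈ range k, (f i + f (-1 + i)) = 0 := fun k f h => by
    have := sum_range_sub (fun i : ℕ => f (-1 + i)) k
    simp only [Nat.cast_succ, Nat.cast_zero, add_zero, CharTwo.sub_eq_add, h, CharTwo.add_self_eq_zero, neg_add_cancel_comm_assoc] at this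
    exact this
  have : ∑ i ∈ range m, ∑ j ∈ range n, (1 : F) = ∑ j ∈ range n, ∑ i ∈ range m, ((y (φ (i, j))).1 + (y (φ (-1 + i, j))).1) +
      ∑ i ∈ range m, ∑ j ∈ range n, ((y (φ (i, j))).2 + (y (φ (i, -1 + j))).2) := by
    rw [sum_comm (s := range n), ← sum_add_distrib]
    refine sum_congr rfl fun i _ => ?_
    rw [← sum_add_distrib]
    refine sum_congr rfl fun j _ => ?_
    simpa [← hm, add_assoc] using (hy (φ (i, j))).symm
  rw [sum_eq_zero (s := range n) fun (j : ℕ) _ => tel m (fun i => (y (φ (i, j))).1) (by rw [← m2 (φ (-1, j)), w, ← hm]; simp),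
    sum_eq_zero (s := range m) fun (i : ℕ) _ => tel n (fun j => (y (φ (i, j))).2) (by rw [← n2 (φ (i, -1)), w, ← hm]; simp)] at this
  simp [m1.natCast_zmod_two, n1.natCast_zmod_two] at this

abbrev M := Matrix.GeneralLinearGroup (Fin 3) ℤ_[3]

noncomputable def ψ : Multiplicative (ℤ × ℤ) →* M := MonoidHom.toHomUnits
  { toFun := fun u => !![1, 0, (u.toAdd.1 : ℤ_[3]); 0, 1, u.toAdd.2; 0, 0, 1]
    map_one' := by simp [Matrix.one_fin_three]
    map_mul' := fun u v => by simp [add_comm] }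

theorem two : IsUnit (2 : ℤ_[3]) := PadicInt.isUnit_iff.2 (PadicInt.norm_natCast_eq_one_iff.2 (by decide : Nat.Coprime 3 2))

noncomputable def T : M := Matrix.GeneralLinearGroup.mk'' !![2, 0, 0; 0, 2, 0; 0, 0, 1] (by simpa [Matrix.det_fin_three] using two)

theorem main : ∃ (G : Type) (_ : Group G), Group.FG G ∧ (∀ g : G, g ≠ 1 → ∃ H : Subgroup G, H.FiniteIndex ∧ g ∉ H) ∧
    ∃ X : Set (G → F × F), X.Nonempty ∧ (∃ (S : Finset G) (P : Set (S → F × F)), X = {x | ∀ g : G, (fun s : S => x (s.1 * g)) ∈ P}) ∧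
    (∃ Δ : Finset G, ∀ Ω₁ Ω₂ : Set G, (∀ d ∈ Δ, ∀ w ∈ Ω₁, d * w ∉ Ω₂) →
      ∀ x₁ ∈ X, ∀ x₂ ∈ X, ∃ z ∈ X, (∀ w ∈ Ω₁, z w = x₁ w) ∧ (∀ w ∈ Ω₂, z w = x₂ w)) ∧
    ∀ y ∈ X, ¬ (Set.range fun g h : G => y (h * g)).Finite := by
  let K := Subgroup.closure ({ψ (.ofAdd (1, 0)), ψ (.ofAdd (0, 1)), T} : Set M)
  have m : ∀ u : ℤ × ℤ, ψ (.ofAdd u) ∈ K := fun u => by
    rw [show u = u.1 • (1, 0) + u.2 • (0, 1) by simp, ofAdd_add, ofAdd_zsmul, ofAdd_zsmul, map_mul, map_zpow, map_zpow]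
    exact mul_mem (zpow_mem (Subgroup.subset_closure (by simp)) _) (zpow_mem (Subgroup.subset_closure (by simp)) _)
  let φ : ℤ × ℤ → K := fun u => ⟨_, m u⟩
  have hm : ∀ u v, φ (u + v) = φ u * φ v := fun u v => Subtype.ext (map_mul ψ _ _)
  have hi : Function.Injective φ := fun u v e => by
    have : (ψ (.ofAdd u)).1 = (ψ (.ofAdd v)).1 := congrArg (·.1.1) e
    exact Prod.ext (by simpa [ψ] using congrFun (congrFun this 0) 2) (by simpa [ψ] using congrFun (congrFun this 1) 2)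
  refine ⟨K, inferInstance, Group.closure_finite_fg _, fun g hg => ?_, X φ, X_ne φ hm hi, X_sft φ, X_si φ hm hi,
    X_aper φ hm ⟨T, Subgroup.subset_closure (by simp)⟩ fun u => Subtype.ext ?_⟩
  · by_contra! h
    refine hg (Subtype.ext (Units.ext (Matrix.ext fun i j => PadicInt.ext_of_toZModPow.1 fun k => ?_)))
    have := h ((Matrix.GeneralLinearGroup.map (PadicInt.toZModPow k)).comp K.subtype).ker inferInstance
    have : (Matrix.GeneralLinearGroup.map (PadicInt.toZModPow k) g.1).1 = 1 := congrArg Units.val (MonoidHom.mem_ker.1 this)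
    have := congrFun (congrFun this i) j
    simpa [Matrix.one_apply, apply_ite] using this
  · refine mul_inv_eq_of_eq_mul (Units.ext ?_)
    simp [φ, ψ, T, sq, two_mul]

end Pool.Agent.H.MP_39f9da_an
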